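import Pool.Agent.Helper83_CNED.Stmt

/-!
MODPOS: the modulus of the curves joining the two squares is positive.
-/

open MeasureTheory Set Topology Filter

open scoped ENNReal

noncomputable section

namespace Pool.Agent.Helper83_CNED.H52

open Pool.Agent.Helper83_CNED

/-- the segment -/
def seg (y : Eu 3) : C(unitInterval, Eu 3) :=
  ⟨fun t => line y 0 (1 / 2 + 2 * (t : ℝ)), by
    exact (continuous_line_right y 0).comp (by fun_prop)⟩

theorem ext_seg (y : Eu 3) {t : ℝ} (ht : t ∈ Icc (0 : ℝ) 1) :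
    ext (seg y) t = line y 0 (1 / 2 + 2 * t) := by
  unfold ext
  rw [IccExtend_of_mem _ _ ht]
  rfl

theorem edist_ext_seg (y : Eu 3) {s t : ℝ} (hs : s ∈ Icc (0 : ℝ) 1) (ht : t ∈ Icc (0 : ℝ) 1) :
    edist (ext (seg y) s) (ext (seg y) t) = edist (2 * s) (2 * t) := by
  rw [ext_seg y hs, ext_seg y ht, edist_dist, edist_dist, dist_line, Real.dist_eq]
  congr 2
  ring

theorem eVar_seg (y : Eu 3) {S : Set ℝ} (hS : S ⊆ Icc (0 : ℝ) 1) :
    eVariationOn (ext (seg y)) S = eVariationOn (fun t : ℝ => 2 * t) S := by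
  unfold eVariationOn
  apply iSup_congr
  rintro ⟨n, u, hu, hus⟩
  apply Finset.sum_congr rfl
  intro i _
  exact edist_ext_seg y (hS (hus _)) (hS (hus _))

theorem eVar_seg_Icc (y : Eu 3) {t : ℝ} (ht : t ∈ Icc (0 : ℝ) 1) :
    eVariationOn (ext (seg y)) (Icc (0 : ℝ) 1 ∩ Icc 0 t) = ENNReal.ofReal (2 * t) := by
  rw [eVar_seg y inter_subset_left]
  have hm : MonotoneOn (fun t : ℝ => 2 * t) (Icc (0 : ℝ) 1) := by
    intro a _ b _ hab
    simpa using hab
  rw [hm.eVariationOn_eq (left_mem_Icc.2 zero_le_one) ht]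
  simp

theorem var_seg (y : Eu 3) {t : ℝ} (ht : t ∈ Icc (0 : ℝ) 1) :
    variationOnFromTo (ext (seg y)) (Icc 0 1) 0 t = 2 * t := by
  unfold variationOnFromTo
  rw [if_pos ht.1, eVar_seg_Icc y ht, ENNReal.toReal_ofReal (by linarith [ht.1])]

theorem len_seg (y : Eu 3) : len (seg y) = 2 := by
  unfold len
  have h := eVar_seg_Icc y (right_mem_Icc.2 (zero_le_one (α := ℝ)))
  rw [inter_self] at h
  rw [h]
  norm_num

theorem nat_seg (y : Eu 3) {s : ℝ} (hs : s ∈ Icc (0 : ℝ) 2) :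
    naturalParameterization (ext (seg y)) (Icc 0 1) 0 s = line y 0 (1 / 2 + s) := by
  have hne : Nonempty ℝ := ⟨0⟩
  have hmem : s / 2 ∈ Icc (0 : ℝ) 1 := ⟨by linarith [hs.1], by linarith [hs.2]⟩
  have hex : ∃ a ∈ Icc (0 : ℝ) 1, variationOnFromTo (ext (seg y)) (Icc 0 1) 0 a = s :=
    ⟨s / 2, hmem, by rw [var_seg y hmem]; ring⟩
  obtain ⟨h1, h2⟩ := Function.invFunOn_pos hex
  unfold naturalParameterization
  rw [Function.comp_apply]
  rw [var_seg y h1] at h2
  rw [ext_seg y h1, h2]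

theorem one_le (ρ : Eu 3 → ℝ≥0∞) (hρ : Admissible (joining F₁ F₂) ρ) (y : Eu 3)
    (hy : ∀ j, j ≠ 0 → y j ∈ Icc (1 / 4 : ℝ) (3 / 4)) :
    1 ≤ ∫⁻ s in Icc (0 : ℝ) 2, ρ (line y 0 (1 / 2 + s)) := by
  have h := hρ.2 (seg y) ?_ (by rw [len_seg]; norm_num)
  · unfold lineIntegral at h
    rw [len_seg] at h
    refine h.trans (le_of_eq ?_)
    have : ENNReal.toReal 2 = 2 := by norm_num
    rw [this]
    apply setLIntegral_congr_fun measurableSet_Icc
    intro s hs
    simp only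
    rw [nat_seg y hs]
  · constructor
    · show line y 0 (1 / 2 + 2 * ((0 : unitInterval) : ℝ)) ∈ F₁
      refine ⟨?_, fun j hj => ?_⟩
      · rw [line_same]; simp
      · rw [line_ne y hj]; exact hy j hj
    · show line y 0 (1 / 2 + 2 * ((1 : unitInterval) : ℝ)) ∈ F₂
      refine ⟨?_, fun j hj => ?_⟩
      · rw [line_same]; norm_num
      · rw [line_ne y hj]; exact hy j hj

theorem pointwise (t : ℝ≥0∞) : t ≤ 1 / 4 + 16 * t ^ 3 := by
  rcases eq_or_ne t ⊤ with rfl | ht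
  · simp
  rcases le_total t (1 / 4) with h | h
  · exact h.trans le_self_add
  · refine le_trans ?_ le_add_self
    have h4 : 1 ≤ 4 * t := by
      calc (1 : ℝ≥0∞) = 4 * (1 / 4) := by
            rw [ENNReal.mul_div_cancel (by norm_num) (by norm_num)]
        _ ≤ 4 * t := by gcongr
    calc t = 1 * 1 * t := by ring
      _ ≤ (4 * t) * (4 * t) * t := by gcongr
      _ = 16 * t ^ 3 := by ring

theorem cube_le (ρ : Eu 3 → ℝ≥0∞) (hρ : Admissible (joining F₁ F₂) ρ) (y : Eu 3)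
    (hy : ∀ j, j ≠ 0 → y j ∈ Icc (1 / 4 : ℝ) (3 / 4)) :
    1 / 32 ≤ ∫⁻ t : ℝ, ρ (line y 0 t) ^ 3 := by
  have hm : Measurable fun s : ℝ => ρ (line y 0 (1 / 2 + s)) := by
    apply hρ.1.comp
    exact ((continuous_line_right y 0).comp (by fun_prop)).measurable
  have h1 := one_le ρ hρ y hy
  have h2 : ∫⁻ s in Icc (0 : ℝ) 2, ρ (line y 0 (1 / 2 + s)) ≤
      1 / 2 + 16 * ∫⁻ s in Icc (0 : ℝ) 2, ρ (line y 0 (1 / 2 + s)) ^ 3 := by
    calc ∫⁻ s in Icc (0 : ℝ) 2, ρ (line y 0 (1 / 2 + s)) ≤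
        ∫⁻ s in Icc (0 : ℝ) 2, (1 / 4 + 16 * ρ (line y 0 (1 / 2 + s)) ^ 3) :=
          lintegral_mono fun s => pointwise _
      _ = _ := by
          rw [lintegral_add_left measurable_const, lintegral_const_mul _ (hm.pow_const 3)]
          congr 1
          rw [lintegral_const, Measure.restrict_apply_univ, Real.volume_Icc]
          have : ENNReal.ofReal (2 - 0) = 2 := by norm_num
          rw [this]
          rw [← ENNReal.toReal_eq_toReal_iff' (by
            apply ENNReal.mul_ne_top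
            · exact ENNReal.div_ne_top (by norm_num) (by norm_num)
            · norm_num) (ENNReal.div_ne_top (by norm_num) (by norm_num))]
          rw [ENNReal.toReal_mul, ENNReal.toReal_div, ENNReal.toReal_div]
          norm_num
  have h3 : ∫⁻ s in Icc (0 : ℝ) 2, ρ (line y 0 (1 / 2 + s)) ^ 3 ≤
      ∫⁻ t : ℝ, ρ (line y 0 t) ^ 3 := by
    calc ∫⁻ s in Icc (0 : ℝ) 2, ρ (line y 0 (1 / 2 + s)) ^ 3 ≤
        ∫⁻ s : ℝ, ρ (line y 0 (1 / 2 + s)) ^ 3 := setLIntegral_le_lintegral _ _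
      _ = _ := lintegral_add_left_eq_self (fun t : ℝ => ρ (line y 0 t) ^ 3) (1 / 2)
  set I := ∫⁻ t : ℝ, ρ (line y 0 t) ^ 3 with hI
  have h4 : (1 : ℝ≥0∞) ≤ 1 / 2 + 16 * I := by
    refine (h1.trans h2).trans ?_
    gcongr
  rcases eq_or_ne I ⊤ with h | h
  · rw [h]; exact le_top
  · have h16 : 16 * I ≠ ⊤ := ENNReal.mul_ne_top (by norm_num) h
    have h12 : (1 / 2 : ℝ≥0∞) ≠ ⊤ := ENNReal.div_ne_top (by norm_num) (by norm_num)
    have h5 : (1 : ℝ) ≤ 1 / 2 + 16 * I.toReal := by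
      have := ENNReal.toReal_mono (ENNReal.add_ne_top.2 ⟨h12, h16⟩) h4
      rw [ENNReal.toReal_add h12 h16, ENNReal.toReal_mul, ENNReal.toReal_div] at this
      simpa using this
    have h132 : (1 / 32 : ℝ≥0∞) ≠ ⊤ := ENNReal.div_ne_top (by norm_num) (by norm_num)
    rw [← ENNReal.toReal_le_toReal h132 h, ENNReal.toReal_div]
    have : (1 : ℝ≥0∞).toReal / (32 : ℝ≥0∞).toReal = 1 / 32 := by norm_num
    rw [this]
    linarith

theorem modPos : ModPosStmt := by
  unfold ModPosStmt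
  have key : ∀ ρ : Eu 3 → ℝ≥0∞, Admissible (joining F₁ F₂) ρ →
      (1 / 32) * ENNReal.ofReal (1 / 4) ≤ ∫⁻ x, ρ x ^ 3 := by
    intro ρ hρ
    have hm : Measurable fun x : Eu 3 => ρ x ^ 3 := hρ.1.pow_const 3
    -- reduce to the product
    have e1 : ∫⁻ x : Eu 3, ρ x ^ 3 = ∫⁻ q : Fin 3 → ℝ, ρ (WithLp.toLp 2 q) ^ 3 :=
      ((PiLp.volume_preserving_toLp (Fin 3)).lintegral_comp hm).symm
    have e2 : ∫⁻ q : Fin 3 → ℝ, ρ (WithLp.toLp 2 q) ^ 3 =
        ∫⁻ r : ℝ × (Fin 2 → ℝ), ρ (WithLp.toLp 2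
          ((MeasurableEquiv.piFinSuccAbove (fun _ : Fin 3 => ℝ) 0).symm r)) ^ 3 := by
      rw [← ((volume_preserving_piFinSuccAbove (fun _ : Fin 3 => ℝ) 0).symm).lintegral_comp
        (f := fun q : Fin 3 → ℝ => ρ (WithLp.toLp 2 q) ^ 3)]
      exact hm.comp (WithLp.measurable_toLp 2 (Fin 3 → ℝ))
    have hm2 : Measurable fun r : ℝ × (Fin 2 → ℝ) => ρ (WithLp.toLp 2
          ((MeasurableEquiv.piFinSuccAbove (fun _ : Fin 3 => ℝ) 0).symm r)) ^ 3 :=
      (hm.comp (WithLp.measurable_toLp 2 (Fin 3 → ℝ))).comp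
        (MeasurableEquiv.piFinSuccAbove (fun _ : Fin 3 => ℝ) 0).symm.measurable
    rw [e1, e2]
    rw [show (volume : Measure (ℝ × (Fin 2 → ℝ))) = volume.prod volume from rfl]
    rw [lintegral_prod_symm _ hm2.aemeasurable]
    have hline : ∀ (t : ℝ) (y : Fin 2 → ℝ), WithLp.toLp 2
          ((MeasurableEquiv.piFinSuccAbove (fun _ : Fin 3 => ℝ) 0).symm (t, y)) =
        line (WithLp.toLp 2 ((MeasurableEquiv.piFinSuccAbove (fun _ : Fin 3 => ℝ) 0).symm
          ((0 : ℝ), y)) : Eu 3) 0 t := by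
      intro t y
      ext j
      rw [line_apply]
      refine Fin.cases ?_ (fun k => ?_) j
      · simp
      · simp
    have hS : MeasurableSet (Set.pi univ fun _ : Fin 2 => Icc (1 / 4 : ℝ) (3 / 4)) :=
      MeasurableSet.univ_pi fun _ => measurableSet_Icc
    calc (1 / 32) * ENNReal.ofReal (1 / 4) =
        ∫⁻ y in Set.pi univ fun _ : Fin 2 => Icc (1 / 4 : ℝ) (3 / 4), (1 / 32 : ℝ≥0∞) := by
          rw [lintegral_const, Measure.restrict_apply_univ, volume_pi_pi]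
          simp only [Real.volume_Icc, Finset.prod_const, Finset.card_univ, Fintype.card_fin]
          rw [← ENNReal.ofReal_pow (by norm_num)]
          norm_num
      _ ≤ ∫⁻ y in Set.pi univ fun _ : Fin 2 => Icc (1 / 4 : ℝ) (3 / 4),
          ∫⁻ t : ℝ, ρ (WithLp.toLp 2
          ((MeasurableEquiv.piFinSuccAbove (fun _ : Fin 3 => ℝ) 0).symm (t, y))) ^ 3 := by
          apply setLIntegral_mono' hS
          intro y hy
          have h := cube_le ρ hρ (WithLp.toLp 2 ((MeasurableEquiv.piFinSuccAbove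
            (fun _ : Fin 3 => ℝ) 0).symm ((0 : ℝ), y))) (by
              intro j hj
              obtain ⟨k, rfl⟩ := Fin.exists_succ_eq.2 hj
              simpa using hy k (mem_univ k))
          refine h.trans (le_of_eq ?_)
          apply lintegral_congr
          intro t
          rw [hline t y]
      _ ≤ _ := setLIntegral_le_lintegral _ _
  intro h0
  have h1 : (1 / 32) * ENNReal.ofReal (1 / 4) ≤ modulus (joining F₁ F₂) :=
    le_iInf₂ key
  rw [h0] at h1
  have : (0 : ℝ≥0∞) < (1 / 32) * ENNReal.ofReal (1 / 4) :=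
    ENNReal.mul_pos (by simp) (by simp)
  exact absurd h1 (not_le.2 this)

end Pool.Agent.Helper83_CNED.H52
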