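import Pool.Agent.Helper83_CNED.Stmt

/-!
NOTCNED: the topological criterion.
-/

open MeasureTheory Set Topology Filter

open scoped ENNReal

noncomputable section

namespace Pool.Agent.Helper83_CNED.H52

open Pool.Agent.Helper83_CNED

/-- a square orthogonal to the axis `0` -/
def sq (c : ℝ) : Set (Eu 3) := {x | x 0 = c ∧ ∀ j, j ≠ 0 → x j ∈ Icc (1 / 4 : ℝ) (3 / 4)}

theorem sq_compact (c : ℝ) : IsCompact (sq c) := by
  have h : IsCompact (Set.pi univ fun j : Fin 3 =>
      if j = 0 then ({c} : Set ℝ) else Icc (1 / 4 : ℝ) (3 / 4)) := by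
    apply isCompact_univ_pi
    intro j
    split_ifs
    · exact isCompact_singleton
    · exact isCompact_Icc
  have h2 := h.image (PiLp.continuous_toLp 2 (fun _ : Fin 3 => ℝ))
  convert h2 using 1
  ext x
  constructor
  · rintro ⟨h0, hj⟩
    refine ⟨WithLp.ofLp x, ?_, rfl⟩
    intro j _
    by_cases h : j = 0
    · subst h; simpa using h0
    · simp only [h, if_false]; exact hj j h
  · rintro ⟨y, hy, rfl⟩
    refine ⟨?_, fun j hj => ?_⟩
    · simpa using hy 0 (mem_univ 0)
    · have := hy j (mem_univ j)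
      simp only [hj, if_false] at this
      exact this

theorem sq_connected (c : ℝ) : IsConnected (sq c) := by
  have hconv : Convex ℝ (sq c) := by
    intro x hx y hy a b ha hb hab
    refine ⟨?_, fun j hj => ?_⟩
    · show a * x 0 + b * y 0 = c
      rw [hx.1, hy.1, ← add_mul, hab, one_mul]
    · exact (convex_Icc (1 / 4 : ℝ) (3 / 4)) (hx.2 j hj) (hy.2 j hj) ha hb hab
  refine ⟨⟨WithLp.toLp 2 (fun j => if j = 0 then c else 1 / 2), ?_, ?_⟩, hconv.isPreconnected⟩
  · simp
  · intro j hj
    simp only [hj, if_false]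
    constructor <;> norm_num

theorem notCned (hmod : ModPosStmt) : NotCnedStmt := by
  rintro E ⟨L, hL, hdy, h1, h2⟩ hE
  have hdis : Disjoint F₁ F₂ := by
    rw [Set.disjoint_left]
    rintro x ⟨hx, _⟩ ⟨hx', _⟩
    rw [hx] at hx'
    norm_num at hx'
  have h := hE F₁ F₂ (sq_compact _) (sq_connected _) (sq_compact _) (sq_connected _) hdis
  have hempty : joining F₁ F₂ ∩ sigmaFam E = ∅ := by
    rw [Set.eq_empty_iff_forall_notMem]
    rintro γ ⟨⟨g0, g1⟩, hc⟩
    have hcont : Continuous fun t : unitInterval => L (γ t) := hL.comp γ.continuous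
    have hsub : Icc (0 : ℝ) 2 ⊆ range fun t : unitInterval => L (γ t) := by
      have := intermediate_value_univ (0 : unitInterval) 1 hcont
      simp only [h1 _ g0, h2 _ g1] at this
      exact this
    have hD : (range fun q : ℤ × ℕ => (q.1 : ℝ) / 2 ^ q.2).Countable := countable_range _
    have hcc : (Icc (0 : ℝ) 2).Countable := by
      refine Countable.mono ?_ ((hc.image L).union hD)
      intro v hv
      obtain ⟨t, ht⟩ := hsub hv
      simp only at ht
      by_cases hE' : γ t ∈ E
      · left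
        exact ⟨γ t, ⟨mem_range_self t, hE'⟩, ht⟩
      · right
        obtain ⟨k, m, hk⟩ := hdy _ hE'
        exact ⟨(k, m), by rw [← ht, hk]⟩
    exact (Cardinal.Real.Icc_countable_iff.not.2 (by norm_num)) hcc
  rw [hempty] at h
  apply hmod
  rw [h]
  have hadm : Admissible (∅ : Set (C(unitInterval, Eu 3))) (0 : Eu 3 → ℝ≥0∞) :=
    ⟨measurable_zero, fun γ hγ => absurd hγ (notMem_empty γ)⟩
  refine le_antisymm ?_ zero_le
  refine (iInf₂_le (0 : Eu 3 → ℝ≥0∞) hadm).trans ?_
  simp

end Pool.Agent.Helper83_CNED.H52
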